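import Pool.Agent.helper5.Cusp.Main

/-!
# Real affine polynomials of degree at most `15 n` with `57 n ^ 2` real cusps
-/

set_option autoImplicit false

namespace Pool.Agent.helper5.CuspP

open MvPolynomial Pool.Agent.helper5.Cusp

theorem aff_of {P K : Type} [Fintype P] [Fintype K] [DecidableEq K] (e1 e2 : P → ℕ) (a : P → ℝ) (D : ℕ)
    (hD : ∀ p, e1 p + e2 p ≤ D) (x y : K → ℝ) (hx : ∀ k, x k ≠ 0) (hy : ∀ k, y k ≠ 0)
    (hinj : ∀ k k', x k = x k' → y k = y k' → k = k')
    (hm : ∀ k, MomentCusp (fun p => (e1 p : ℝ)) (fun p => (e2 p : ℝ))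
      (fun p => a p * x k ^ e1 p * y k ^ e2 p)) (n : ℕ) (hnpos : 0 < n) :
    ∃ (f : MvPolynomial (Fin 2) ℝ) (S : Finset (Fin 2 → ℝ)), f.totalDegree ≤ D * n ∧
      S.card = Fintype.card K * (n * n) ∧ ∀ p ∈ S, CuspAt f p := by
  classical
  -- scaling
  set A : ℝ := 1 + ∑ k, |x k| with hA
  set B : ℝ := 1 + ∑ k, |y k| with hB
  have hApos : 0 < A := by positivity
  have hBpos : 0 < B := by positivity
  have hxA : ∀ k, |x k / A| < 1 := by
    intro k
    rw [abs_div, abs_of_pos hApos, div_lt_one hApos]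
    have := Finset.single_le_sum (f := fun k => |x k|) (fun i _ => abs_nonneg _)
      (Finset.mem_univ k)
    linarith
  have hyB : ∀ k, |y k / B| < 1 := by
    intro k
    rw [abs_div, abs_of_pos hBpos, div_lt_one hBpos]
    have := Finset.single_le_sum (f := fun k => |y k|) (fun i _ => abs_nonneg _)
      (Finset.mem_univ k)
    linarith
  choose ξ hξ hξ' using fun k => cheb_preimages n hnpos _ (hxA k)
  choose η hη hη' using fun k => cheb_preimages n hnpos _ (hyB k)
  set g1 : Polynomial ℝ := Polynomial.C A * Polynomial.Chebyshev.T ℝ (n : ℤ) with hg1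
  set g2 : Polynomial ℝ := Polynomial.C B * Polynomial.Chebyshev.T ℝ (n : ℤ) with hg2
  have hTdeg : (Polynomial.Chebyshev.T ℝ (n : ℤ)).natDegree = n := by
    rw [Polynomial.Chebyshev.natDegree_T]; simp
  have hd1 : g1.natDegree ≤ n := by
    rw [hg1]
    exact (Polynomial.natDegree_C_mul_le _ _).trans hTdeg.le
  have hd2 : g2.natDegree ≤ n := by
    rw [hg2]
    exact (Polynomial.natDegree_C_mul_le _ _).trans hTdeg.le
  have hcusp : ∀ k i j, CuspAt (pull e1 e2 a g1 g2) ![ξ k i, η k j] := by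
    intro k i j
    apply cuspAt_pull e1 e2 a g1 g2 _ (x k) (y k) (hx k) (hy k)
    · show g1.eval (ξ k i) = x k
      rw [hg1, Polynomial.eval_mul, Polynomial.eval_C, (hξ' k i).1]
      field_simp
    · show g2.eval (η k j) = y k
      rw [hg2, Polynomial.eval_mul, Polynomial.eval_C, (hη' k j).1]
      field_simp
    · show (Polynomial.derivative g1).eval (ξ k i) ≠ 0
      rw [hg1, Polynomial.derivative_C_mul, Polynomial.eval_mul, Polynomial.eval_C]
      exact mul_ne_zero hApos.ne' (hξ' k i).2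
    · show (Polynomial.derivative g2).eval (η k j) ≠ 0
      rw [hg2, Polynomial.derivative_C_mul, Polynomial.eval_mul, Polynomial.eval_C]
      exact mul_ne_zero hBpos.ne' (hη' k j).2
    · exact hm k
  have hdegU := totalDegree_pull e1 e2 a g1 g2 n D hd1 hd2 hD
  -- the point set
  let φ : K × Fin n × Fin n → (Fin 2 → ℝ) := fun t => ![ξ t.1 t.2.1, η t.1 t.2.2]
  have hφ : Function.Injective φ := by
    rintro ⟨k, i, j⟩ ⟨k', i', j'⟩ h
    have e0 : ξ k i = ξ k' i' := congrFun h 0
    have e1' : η k j = η k' j' := congrFun h 1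
    have hk : k = k' := by
      apply hinj
      · have h1 := (hξ' k i).1
        have h2 := (hξ' k' i').1
        rw [e0, h2] at h1
        field_simp at h1
        exact h1.symm
      · have h1 := (hη' k j).1
        have h2 := (hη' k' j').1
        rw [e1', h2] at h1
        field_simp at h1
        exact h1.symm
    subst hk
    rw [hξ k e0, hη k e1']
  refine ⟨pull e1 e2 a g1 g2, Finset.univ.image φ, hdegU, ?_, ?_⟩
  · rw [Finset.card_image_of_injective _ hφ, Finset.card_univ, Fintype.card_prod,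
      Fintype.card_prod, Fintype.card_fin]
  · intro p hp
    obtain ⟨⟨k, i, j⟩, -, rfl⟩ := Finset.mem_image.mp hp
    exact hcusp k i j

theorem aff_cusps (n : ℕ) (hn : 0 < n) : ∃ (f : MvPolynomial (Fin 2) ℝ) (S : Finset (Fin 2 → ℝ)),
    f.totalDegree ≤ 15 * n ∧ S.card = 57 * (n * n) ∧ ∀ p ∈ S, CuspAt f p := by
  classical
  obtain ⟨a, x, y, hx, hy, hinj, hm⟩ := exists_cusps
  obtain ⟨f, S, h1, h2, h3⟩ := aff_of (fun p : Fin 121 => E1 p) (fun p => E2 p) a 15 (fun p => ck_D p p.2) x y hx hy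
    hinj hm n hn
  rw [card_cusps] at h2
  exact ⟨f, S, h1, h2, h3⟩

end Pool.Agent.helper5.CuspP
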