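import Mathlib

/-!
# Real cusps of real plane projective curves: definitions
-/

set_option autoImplicit false

namespace Pool.Agent.helper5.CuspP

open MvPolynomial
open scoped LinearAlgebra.Projectivization ENNReal

/-- The curve `F = 0` has an ordinary cusp (an `A_2` singularity) at the point with homogeneous coordinates `w`: `F` and
its first derivatives vanish at `w`, the Hessian form at `w` is not zero, and the third derivative at `w` does not vanish
at some vector `v` of the kernel of the Hessian form (so the Hessian has rank one). -/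
def IsCusp (F : MvPolynomial (Fin 3) ℝ) (w : Fin 3 → ℝ) : Prop :=
  eval w F = 0 ∧ (∀ i, eval w (pderiv i F) = 0) ∧ (∃ i j, eval w (pderiv i (pderiv j F)) ≠ 0) ∧
  ∃ v : Fin 3 → ℝ, (∀ i, ∑ j, eval w (pderiv i (pderiv j F)) * v j = 0) ∧
    ∑ i, ∑ j, ∑ k, v i * v j * v k * eval w (pderiv i (pderiv j (pderiv k F))) ≠ 0

/-- The real cusps of the curve `F = 0`: points of the real projective plane. -/
def realCusps (F : MvPolynomial (Fin 3) ℝ) : Set (ℙ ℝ (Fin 3 → ℝ)) := {P | IsCusp F P.rep}

/-- The real plane curves of degree `d`: the forms of degree `d` without repeated factors. -/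
def Curve (d : ℕ) : Type := {F : MvPolynomial (Fin 3) ℝ // F.IsHomogeneous d ∧ Squarefree F}

/-- The maximal number of real cusps of a real plane curve of degree `d`. -/
noncomputable def kmaxR (d : ℕ) : ℝ≥0∞ := ⨆ C : Curve d, ((realCusps C.1).encard : ℝ≥0∞)

end Pool.Agent.helper5.CuspP
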