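import Pool.Agent.helper5.CuspP.Leib

/-!
# Forms: factors, squarefree forms, additional lines
-/

set_option autoImplicit false

namespace Pool.Agent.helper5.CuspP

open MvPolynomial

lemma eval_smul {F : MvPolynomial (Fin 3) ℝ} {d : ℕ} (hF : F.IsHomogeneous d) (c : ℝ) (w : Fin 3 → ℝ) :
    eval (c • w) F = c ^ d * eval w F := by
  rw [eval_eq', eval_eq', Finset.mul_sum]
  refine Finset.sum_congr rfl fun m hm => ?_
  have hd : m.degree = d := by
    by_contra h
    exact (mem_support_iff.mp hm) (hF.coeff_eq_zero h)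
  simp only [Pi.smul_apply, smul_eq_mul, mul_pow, Finset.prod_mul_distrib]
  rw [Finset.prod_pow_eq_pow_sum]
  have : ∑ i, m i = d := by
    rw [← hd, Finsupp.degree_eq_sum]
  rw [this]
  ring

/-- the factors of a form are forms -/
lemma homog_of_mul {a b : MvPolynomial (Fin 3) ℝ} {d : ℕ} (h : (a * b).IsHomogeneous d) (h0 : a * b ≠ 0) :
    a.IsHomogeneous a.totalDegree := by
  have ha : a ≠ 0 := left_ne_zero_of_mul h0
  have hb : b ≠ 0 := right_ne_zero_of_mul h0
  have hd : a.totalDegree + b.totalDegree = d := by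
    rw [← totalDegree_mul_of_isDomain ha hb, h.totalDegree h0]
  obtain ⟨m', hm'⟩ : ∃ m', coeff m' b ≠ 0 := by
    by_contra hcon
    push Not at hcon
    exact hb (MvPolynomial.ext _ _ fun m => by rw [hcon m, coeff_zero])
  have hob : MvPowerSeries.order (b : MvPowerSeries (Fin 3) ℝ) ≤ (b.totalDegree : ℕ∞) := by
    refine (MvPowerSeries.order_le (d := m') ?_).trans ?_
    · rw [MvPolynomial.coeff_coe]
      exact hm'
    · have h2 : m'.degree ≤ b.totalDegree := by
        have := le_totalDegree (mem_support_iff.mpr hm')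
        rwa [Finsupp.degree_eq_sum, ← Finsupp.sum_fintype m' (fun _ e => e) (fun _ => rfl)]
      exact_mod_cast h2
  have hoab : (d : ℕ∞) ≤ MvPowerSeries.order ((a * b : MvPolynomial (Fin 3) ℝ) : MvPowerSeries (Fin 3) ℝ) := by
    refine MvPowerSeries.nat_le_order fun m hm => ?_
    rw [MvPolynomial.coeff_coe]
    exact h.coeff_eq_zero (by omega)
  rw [MvPolynomial.coe_mul, MvPowerSeries.order_mul] at hoab
  intro m hm
  have hoa : MvPowerSeries.order (a : MvPowerSeries (Fin 3) ℝ) ≤ (m.degree : ℕ∞) := by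
    refine MvPowerSeries.order_le ?_
    rw [MvPolynomial.coeff_coe]
    exact hm
  have h3 : (d : ℕ∞) ≤ ((m.degree + b.totalDegree : ℕ) : ℕ∞) := by
    refine hoab.trans ?_
    push_cast
    exact add_le_add hoa hob
  have h4 : d ≤ m.degree + b.totalDegree := by exact_mod_cast h3
  have h5 : m.degree ≤ a.totalDegree := by
    have := le_totalDegree (mem_support_iff.mpr hm)
    rwa [Finsupp.degree_eq_sum, ← Finsupp.sum_fintype m (fun _ e => e) (fun _ => rfl)]
  have h6 : Finsupp.weight (1 : Fin 3 → ℕ) m = m.degree := by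
    rw [Finsupp.degree_eq_weight_one]
    rfl
  rw [h6]
  omega

theorem exists_squarefree (S : Finset (Fin 3 → ℝ)) (e : ℕ) : ∀ F : MvPolynomial (Fin 3) ℝ, F.IsHomogeneous e → F ≠ 0 →
    (∀ w ∈ S, IsCusp F w) → ∃ e' ≤ e, ∃ F' : MvPolynomial (Fin 3) ℝ, F'.IsHomogeneous e' ∧ Squarefree F' ∧
      ∀ w ∈ S, IsCusp F' w := by
  induction e using Nat.strong_induction_on with
  | _ e IH =>
  intro F hF h0 hS
  by_cases hsq : Squarefree F
  · exact ⟨e, le_rfl, F, hF, hsq, hS⟩
  · rw [Squarefree] at hsq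
    push Not at hsq
    obtain ⟨x, ⟨r, hr⟩, hx⟩ := hsq
    have hr' : F = x * (x * r) := by rw [hr, mul_assoc]
    have hr2 : F = (x * r) * x := by rw [hr', mul_comm]
    have hx0 : x ≠ 0 := by
      rintro rfl
      rw [hr', zero_mul] at h0
      exact h0 rfl
    have hxr0 : x * r ≠ 0 := by
      intro h
      rw [hr', h, mul_zero] at h0
      exact h0 rfl
    have hhom : (x * r).IsHomogeneous (x * r).totalDegree := homog_of_mul (b := x) (d := e) (by rw [← hr2]; exact hF)
      (by rw [← hr2]; exact h0)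
    have hdeg : x.totalDegree + (x * r).totalDegree = e := by
      rw [← totalDegree_mul_of_isDomain hx0 hxr0, ← hr', hF.totalDegree h0]
    have hpos : 0 < x.totalDegree := by
      rcases Nat.eq_zero_or_pos x.totalDegree with h | h
      · exfalso
        apply hx
        have h2 := totalDegree_eq_zero_iff_eq_C.mp h
        rw [h2]
        have hc : coeff 0 x ≠ 0 := by
          intro hc
          rw [hc, C_0] at h2
          exact hx0 h2
        exact (isUnit_iff_ne_zero.mpr hc).map C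
      · exact h
    obtain ⟨e', he', F', h1, h2, h3⟩ := IH (x * r).totalDegree (by omega) (x * r) hhom hxr0 (by
      intro w hw
      have h4 := hS w hw
      rw [hr'] at h4
      exact isCusp_of_mul (ne_zero_of_cusp h4) h4)
    exact ⟨e', by omega, F', h1, h2, h3⟩

/-- one more line -/
theorem pad1 (S : Finset (Fin 3 → ℝ)) (hS2 : ∀ w ∈ S, w 2 ≠ 0) (e : ℕ) (F : MvPolynomial (Fin 3) ℝ)
    (hF : F.IsHomogeneous e) (hsq : Squarefree F) (hS : ∀ w ∈ S, IsCusp F w) :
    ∃ F' : MvPolynomial (Fin 3) ℝ, F'.IsHomogeneous (e + 1) ∧ Squarefree F' ∧ ∀ w ∈ S, IsCusp F' w := by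
  classical
  have h0 : F ≠ 0 := hsq.ne_zero
  obtain ⟨w, hw⟩ : ∃ w, eval w (F * X 2) ≠ 0 := by
    by_contra hcon
    push Not at hcon
    have : F * X 2 = 0 := MvPolynomial.funext fun w => by rw [hcon w, map_zero]
    exact (mul_ne_zero h0 (X_ne_zero 2)) this
  rw [map_mul, eval_X] at hw
  have hwF : eval w F ≠ 0 := left_ne_zero_of_mul hw
  have hw2 : w 2 ≠ 0 := right_ne_zero_of_mul hw
  have hw' : eval ((w 2)⁻¹ • w) F ≠ 0 := by
    rw [eval_smul hF]
    exact mul_ne_zero (pow_ne_zero _ (inv_ne_zero hw2)) hwF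
  have hwe : (w 2)⁻¹ • w = ![w 0 / w 2, w 1 / w 2, 1] := by
    funext i
    fin_cases i
    · show (w 2)⁻¹ * w 0 = w 0 / w 2
      rw [div_eq_inv_mul]
    · show (w 2)⁻¹ * w 1 = w 1 / w 2
      rw [div_eq_inv_mul]
    · show (w 2)⁻¹ * w 2 = 1
      exact inv_mul_cancel₀ hw2
  rw [hwe] at hw'
  set x0 := w 0 / w 2
  set y0 := w 1 / w 2
  let P : Polynomial ℝ := MvPolynomial.aeval ![Polynomial.X, Polynomial.C y0, 1] F
  have hPe : ∀ c : ℝ, P.eval c = eval ![c, y0, 1] F := by
    intro c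
    show (Polynomial.evalRingHom c) (MvPolynomial.aeval ![Polynomial.X, Polynomial.C y0, 1] F) = _
    rw [MvPolynomial.aeval_def, MvPolynomial.hom_eval₂]
    have h1 : (Polynomial.evalRingHom c).comp (algebraMap ℝ (Polynomial ℝ)) = RingHom.id ℝ := by
      ext r
      simp
    have h2 : (fun i => (Polynomial.evalRingHom c) ((![Polynomial.X, Polynomial.C y0, 1] : Fin 3 → Polynomial ℝ) i)) =
        ![c, y0, 1] := by
      funext i
      fin_cases i <;> simp
    rw [h1]
    rw [h2]
    rfl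
  have hP0 : P ≠ 0 := by
    intro h
    apply hw'
    rw [← hPe, h, Polynomial.eval_zero]
  obtain ⟨c, hc⟩ := Infinite.exists_notMem_finset (P.roots.toFinset ∪ S.image fun w => w 0 / w 2)
  rw [Finset.mem_union, not_or] at hc
  have hc1 : eval ![c, y0, 1] F ≠ 0 := by
    intro h
    apply hc.1
    rw [Multiset.mem_toFinset, Polynomial.mem_roots hP0, Polynomial.IsRoot, hPe, h]
  have hc2 : ∀ w ∈ S, w 0 - c * w 2 ≠ 0 := by
    intro w hw h
    apply hc.2
    rw [Finset.mem_image]
    refine ⟨w, hw, ?_⟩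
    rw [div_eq_iff (hS2 w hw)]
    linarith
  let l : MvPolynomial (Fin 3) ℝ := X 0 - C c * X 2
  have hlh : l.IsHomogeneous 1 := by
    apply (isHomogeneous_X ℝ 0).sub
    have := (isHomogeneous_C (Fin 3) c).mul (isHomogeneous_X ℝ (2 : Fin 3))
    rwa [zero_add] at this
  have hlc : coeff (Finsupp.single 0 1) l = 1 := by
    show coeff (Finsupp.single 0 1) (X 0 - C c * X 2) = 1
    have h20 : ¬ (Finsupp.single (2 : Fin 3) 1 = Finsupp.single (0 : Fin 3) 1) := by
      intro h
      have := congrFun (congrArg DFunLike.coe h) 0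
      simp at this
    rw [coeff_sub, coeff_C_mul, coeff_X, coeff_X, if_pos rfl, if_neg h20]
    ring
  have hl0 : l ≠ 0 := by
    intro h
    rw [h, coeff_zero] at hlc
    exact zero_ne_one hlc
  have hirr : Irreducible l := by
    apply irreducible_of_totalDegree_eq_one
    · exact hlh.totalDegree hl0
    · intro x hx
      have := hx (Finsupp.single 0 1)
      rw [hlc] at this
      exact isUnit_of_dvd_one this
  have hle : ∀ w : Fin 3 → ℝ, eval w l = w 0 - c * w 2 := by
    intro w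
    show eval w (X 0 - C c * X 2) = _
    rw [map_sub, map_mul, eval_X, eval_X, eval_C]
  have hnd : ¬ l ∣ F := by
    rintro ⟨g, hg⟩
    apply hc1
    rw [hg, map_mul, hle]
    have : (![c, y0, 1] : Fin 3 → ℝ) 0 - c * (![c, y0, 1] : Fin 3 → ℝ) 2 = 0 := by
      show c - c * 1 = 0
      ring
    rw [this, zero_mul]
  refine ⟨l * F, ?_, ?_, ?_⟩
  · have := hlh.mul hF
    rwa [add_comm] at this
  · exact squarefree_mul_iff.mpr ⟨hirr.isRelPrime_iff_not_dvd.mpr hnd, hirr.squarefree, hsq⟩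
  · intro w hw
    apply isCusp_mul _ (hS w hw)
    rw [hle]
    exact hc2 w hw

theorem pad (S : Finset (Fin 3 → ℝ)) (hS2 : ∀ w ∈ S, w 2 ≠ 0) (e : ℕ) (F : MvPolynomial (Fin 3) ℝ)
    (hF : F.IsHomogeneous e) (hsq : Squarefree F) (hS : ∀ w ∈ S, IsCusp F w) (k : ℕ) :
    ∃ F' : MvPolynomial (Fin 3) ℝ, F'.IsHomogeneous (e + k) ∧ Squarefree F' ∧ ∀ w ∈ S, IsCusp F' w := by
  induction k with
  | zero => exact ⟨F, hF, hsq, hS⟩
  | succ k ih =>
    obtain ⟨F', h1, h2, h3⟩ := ih
    exact pad1 S hS2 (e + k) F' h1 h2 h3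

/-- the condition does not depend on the homogeneous coordinates -/
theorem isCusp_smul {F : MvPolynomial (Fin 3) ℝ} {d : ℕ} (hF : F.IsHomogeneous d) {w : Fin 3 → ℝ} {c : ℝ} (hc : c ≠ 0)
    (h : IsCusp F w) : IsCusp F (c • w) := by
  obtain ⟨h0, h1, ⟨i, j, h2⟩, v, h3, h4⟩ := h
  have k2 : ∀ i j, eval (c • w) (pderiv i (pderiv j F)) = c ^ (d - 1 - 1) * eval w (pderiv i (pderiv j F)) :=
    fun i j => eval_smul (hF.pderiv.pderiv) c w
  have k3 : ∀ i j k, eval (c • w) (pderiv i (pderiv j (pderiv k F))) =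
      c ^ (d - 1 - 1 - 1) * eval w (pderiv i (pderiv j (pderiv k F))) :=
    fun i j k => eval_smul (hF.pderiv.pderiv.pderiv) c w
  refine ⟨?_, ?_, ⟨i, j, ?_⟩, v, ?_, ?_⟩
  · rw [eval_smul hF, h0, mul_zero]
  · intro i
    rw [eval_smul hF.pderiv, h1, mul_zero]
  · rw [k2]
    exact mul_ne_zero (pow_ne_zero _ hc) h2
  · intro i
    simp only [k2, mul_assoc, ← Finset.mul_sum, h3, mul_zero]
  · have e : ∀ i j k : Fin 3, v i * v j * v k * eval (c • w) (pderiv i (pderiv j (pderiv k F))) =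
        c ^ (d - 1 - 1 - 1) * (v i * v j * v k * eval w (pderiv i (pderiv j (pderiv k F)))) := by
      intro i j k
      rw [k3]
      ring
    simp only [e, ← Finset.mul_sum]
    exact mul_ne_zero (pow_ne_zero _ hc) h4

end Pool.Agent.helper5.CuspP
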