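import Pool.Agent.helper5.CuspP.Defs

/-!
# Cusps of a product
-/

set_option autoImplicit false

namespace Pool.Agent.helper5.CuspP

open MvPolynomial

variable {w : Fin 3 → ℝ}

lemma d1 (q G : MvPolynomial (Fin 3) ℝ) (i : Fin 3) :
    eval w (pderiv i (q * G)) = eval w (pderiv i q) * eval w G + eval w q * eval w (pderiv i G) := by
  rw [pderiv_mul, map_add, map_mul, map_mul]

lemma d2 (q G : MvPolynomial (Fin 3) ℝ) (i j : Fin 3) :
    eval w (pderiv i (pderiv j (q * G))) =
      eval w (pderiv i (pderiv j q)) * eval w G + eval w (pderiv j q) * eval w (pderiv i G) +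
      eval w (pderiv i q) * eval w (pderiv j G) + eval w q * eval w (pderiv i (pderiv j G)) := by
  rw [pderiv_mul, map_add (pderiv i), map_add, d1, d1]
  ring

lemma d3 (q G : MvPolynomial (Fin 3) ℝ) (i j k : Fin 3) :
    eval w (pderiv i (pderiv j (pderiv k (q * G)))) =
      eval w (pderiv i (pderiv j (pderiv k q))) * eval w G +
      eval w (pderiv j (pderiv k q)) * eval w (pderiv i G) +
      eval w (pderiv i (pderiv k q)) * eval w (pderiv j G) +
      eval w (pderiv k q) * eval w (pderiv i (pderiv j G)) +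
      eval w (pderiv i (pderiv j q)) * eval w (pderiv k G) +
      eval w (pderiv j q) * eval w (pderiv i (pderiv k G)) +
      eval w (pderiv i q) * eval w (pderiv j (pderiv k G)) +
      eval w q * eval w (pderiv i (pderiv j (pderiv k G))) := by
  rw [pderiv_mul, map_add (pderiv j), map_add (pderiv i), map_add, d2, d2]
  ring

lemma contr (A : Fin 3 → ℝ) (H : Fin 3 → Fin 3 → ℝ) (v : Fin 3 → ℝ) :
    ∑ i, ∑ j, ∑ k, v i * v j * v k * (A k * H i j + A j * H i k + A i * H j k) =
      3 * (∑ i, A i * v i) * ∑ i, v i * ∑ j, H i j * v j := by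
  simp only [Fin.sum_univ_three]
  ring

/-- the case of a singular point of `G` -/
lemma cub (q G : MvPolynomial (Fin 3) ℝ) (h0 : eval w G = 0) (h1 : ∀ i, eval w (pderiv i G) = 0) (v : Fin 3 → ℝ)
    (hv : ∀ i, ∑ j, eval w (pderiv i (pderiv j G)) * v j = 0) :
    ∑ i, ∑ j, ∑ k, v i * v j * v k * eval w (pderiv i (pderiv j (pderiv k (q * G)))) =
      eval w q * ∑ i, ∑ j, ∑ k, v i * v j * v k * eval w (pderiv i (pderiv j (pderiv k G))) := by
  have e : ∀ i j k : Fin 3, v i * v j * v k * eval w (pderiv i (pderiv j (pderiv k (q * G)))) =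
      v i * v j * v k * (eval w (pderiv k q) * eval w (pderiv i (pderiv j G)) +
        eval w (pderiv j q) * eval w (pderiv i (pderiv k G)) +
        eval w (pderiv i q) * eval w (pderiv j (pderiv k G))) +
      eval w q * (v i * v j * v k * eval w (pderiv i (pderiv j (pderiv k G)))) := by
    intro i j k
    rw [d3, h0, h1, h1, h1]
    ring
  simp only [e, Finset.sum_add_distrib, ← Finset.mul_sum]
  rw [contr (fun i => eval w (pderiv i q)) (fun i j => eval w (pderiv i (pderiv j G))) v]
  simp only [hv, mul_zero, Finset.sum_const_zero, zero_add]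

theorem isCusp_of_mul {q G : MvPolynomial (Fin 3) ℝ} (hq : eval w q ≠ 0) (h : IsCusp (q * G) w) : IsCusp G w := by
  obtain ⟨h0, h1, ⟨i, j, h2⟩, v, h3, h4⟩ := h
  have g0 : eval w G = 0 := by
    rw [map_mul] at h0
    exact (mul_eq_zero.mp h0).resolve_left hq
  have g1 : ∀ i, eval w (pderiv i G) = 0 := by
    intro i
    have := h1 i
    rw [d1, g0, mul_zero, zero_add] at this
    exact (mul_eq_zero.mp this).resolve_left hq
  have g2 : ∀ i j, eval w (pderiv i (pderiv j (q * G))) = eval w q * eval w (pderiv i (pderiv j G)) := by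
    intro i j
    rw [d2, g0, g1, g1]
    ring
  have g3 : ∀ i, ∑ j, eval w (pderiv i (pderiv j G)) * v j = 0 := by
    intro i
    have := h3 i
    simp only [g2, mul_assoc, ← Finset.mul_sum] at this
    exact (mul_eq_zero.mp this).resolve_left hq
  refine ⟨g0, g1, ⟨i, j, ?_⟩, v, g3, ?_⟩
  · intro h
    apply h2
    rw [g2, h, mul_zero]
  · intro h
    apply h4
    rw [cub q G g0 g1 v g3, h, mul_zero]

theorem isCusp_mul {q G : MvPolynomial (Fin 3) ℝ} (hq : eval w q ≠ 0) (h : IsCusp G w) : IsCusp (q * G) w := by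
  obtain ⟨g0, g1, ⟨i, j, h2⟩, v, h3, h4⟩ := h
  have g2 : ∀ i j, eval w (pderiv i (pderiv j (q * G))) = eval w q * eval w (pderiv i (pderiv j G)) := by
    intro i j
    rw [d2, g0, g1, g1]
    ring
  refine ⟨?_, ?_, ⟨i, j, ?_⟩, v, ?_, ?_⟩
  · rw [map_mul, g0, mul_zero]
  · intro i
    rw [d1, g0, g1, mul_zero, mul_zero, add_zero]
  · rw [g2]
    exact mul_ne_zero hq h2
  · intro i
    simp only [g2, mul_assoc, ← Finset.mul_sum, h3, mul_zero]
  · rw [cub q G g0 g1 v h3]
    exact mul_ne_zero hq h4

theorem ne_zero_of_cusp {q r : MvPolynomial (Fin 3) ℝ} (h : IsCusp (q * (q * r)) w) : eval w q ≠ 0 := by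
  intro hq
  obtain ⟨-, -, ⟨i0, j0, h2⟩, v, h3, h4⟩ := h
  have b0 : eval w (q * r) = 0 := by rw [map_mul, hq, zero_mul]
  have b1 : ∀ i, eval w (pderiv i (q * r)) = eval w r * eval w (pderiv i q) := by
    intro i
    rw [d1, hq]
    ring
  have H : ∀ i j, eval w (pderiv i (pderiv j (q * (q * r)))) =
      2 * eval w r * (eval w (pderiv i q) * eval w (pderiv j q)) := by
    intro i j
    rw [d2, b0, b1, b1, hq]
    ring
  have hr : 2 * eval w r * eval w (pderiv i0 q) ≠ 0 := by
    intro h
    apply h2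
    rw [H, ← mul_assoc, h, zero_mul]
  have hav : ∑ j, eval w (pderiv j q) * v j = 0 := by
    have h5 := h3 i0
    have h6 : ∀ j, eval w (pderiv i0 (pderiv j (q * (q * r)))) * v j =
        2 * eval w r * eval w (pderiv i0 q) * (eval w (pderiv j q) * v j) := by
      intro j
      rw [H]
      ring
    simp only [h6, ← Finset.mul_sum] at h5
    exact (mul_eq_zero.mp h5).resolve_left hr
  apply h4
  have e : ∀ i j k : Fin 3, v i * v j * v k * eval w (pderiv i (pderiv j (pderiv k (q * (q * r))))) =
      v i * v j * v k * (eval w (pderiv k q) * (eval w (pderiv i (pderiv j (q * r))) + eval w r * eval w (pderiv i (pderiv j q))) +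
        eval w (pderiv j q) * (eval w (pderiv i (pderiv k (q * r))) + eval w r * eval w (pderiv i (pderiv k q))) +
        eval w (pderiv i q) * (eval w (pderiv j (pderiv k (q * r))) + eval w r * eval w (pderiv j (pderiv k q)))) := by
    intro i j k
    rw [d3, b0, b1, b1, b1, hq]
    ring
  simp only [e]
  rw [contr (fun i => eval w (pderiv i q)) (fun i j => eval w (pderiv i (pderiv j (q * r))) + eval w r * eval w (pderiv i (pderiv j q))) v,
    hav, mul_zero, zero_mul]

end Pool.Agent.helper5.CuspP
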