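import Pool.Agent.helper5.CuspP.Hom
import Pool.Agent.helper5.CuspP.Aff

/-!
# From affine polynomials to forms
-/

set_option autoImplicit false

namespace Pool.Agent.helper5.CuspP

open MvPolynomial Pool.Agent.helper5.Cusp
open scoped LinearAlgebra.Projectivization ENNReal

/-- the affine chart -/
noncomputable def rho : MvPolynomial (Fin 3) ℝ →ₐ[ℝ] MvPolynomial (Fin 2) ℝ := aeval ![X 0, X 1, 1]

lemma rho_X0 : rho (X 0) = X 0 := by
  unfold rho
  rw [aeval_X]
  rfl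

lemma rho_X1 : rho (X 1) = X 1 := by
  unfold rho
  rw [aeval_X]
  rfl

lemma rho_X2 : rho (X 2) = 1 := by
  unfold rho
  rw [aeval_X]
  rfl

lemma eval_rho (P : MvPolynomial (Fin 3) ℝ) (p : Fin 2 → ℝ) : eval p (rho P) = eval ![p 0, p 1, 1] P := by
  induction P using MvPolynomial.induction_on with
  | C a => rw [← algebraMap_eq, AlgHom.commutes, algebraMap_eq, eval_C, algebraMap_eq, eval_C]
  | add a b ha hb => rw [map_add, map_add, map_add, ha, hb]
  | mul_X a i ha =>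
    rw [map_mul, map_mul, map_mul, ha]
    congr 1
    fin_cases i
    · show eval p (rho (X 0)) = eval ![p 0, p 1, 1] (X 0)
      rw [rho_X0, eval_X, eval_X]
      rfl
    · show eval p (rho (X 1)) = eval ![p 0, p 1, 1] (X 1)
      rw [rho_X1, eval_X, eval_X]
      rfl
    · show eval p (rho (X 2)) = eval ![p 0, p 1, 1] (X 2)
      rw [rho_X2, eval_X, map_one]
      rfl

lemma pderiv0_rho (P : MvPolynomial (Fin 3) ℝ) : pderiv 0 (rho P) = rho (pderiv 0 P) := by
  induction P using MvPolynomial.induction_on with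
  | C a => rw [← algebraMap_eq, AlgHom.commutes, algebraMap_eq, algebraMap_eq, pderiv_C, pderiv_C, map_zero]
  | add a b ha hb => rw [map_add, map_add, map_add, map_add, ha, hb]
  | mul_X a i ha =>
    rw [map_mul, pderiv_mul, pderiv_mul, map_add, map_mul, map_mul, ha]
    congr 2
    fin_cases i
    · show pderiv 0 (rho (X 0)) = rho (pderiv 0 (X 0))
      rw [rho_X0, pderiv_X_self, pderiv_X_self, map_one]
    · show pderiv 0 (rho (X 1)) = rho (pderiv 0 (X 1))
      rw [rho_X1, pderiv_X_of_ne (by decide), pderiv_X_of_ne (by decide), map_zero]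
    · show pderiv 0 (rho (X 2)) = rho (pderiv 0 (X 2))
      rw [rho_X2, pderiv_one, pderiv_X_of_ne (by decide), map_zero]

lemma pderiv1_rho (P : MvPolynomial (Fin 3) ℝ) : pderiv 1 (rho P) = rho (pderiv 1 P) := by
  induction P using MvPolynomial.induction_on with
  | C a => rw [← algebraMap_eq, AlgHom.commutes, algebraMap_eq, algebraMap_eq, pderiv_C, pderiv_C, map_zero]
  | add a b ha hb => rw [map_add, map_add, map_add, map_add, ha, hb]
  | mul_X a i ha =>
    rw [map_mul, pderiv_mul, pderiv_mul, map_add, map_mul, map_mul, ha]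
    congr 2
    fin_cases i
    · show pderiv 1 (rho (X 0)) = rho (pderiv 1 (X 0))
      rw [rho_X0, pderiv_X_of_ne (by decide), pderiv_X_of_ne (by decide), map_zero]
    · show pderiv 1 (rho (X 1)) = rho (pderiv 1 (X 1))
      rw [rho_X1, pderiv_X_self, pderiv_X_self, map_one]
    · show pderiv 1 (rho (X 2)) = rho (pderiv 1 (X 2))
      rw [rho_X2, pderiv_one, pderiv_X_of_ne (by decide), map_zero]

/-- homogenization -/
lemma homogenize (f : MvPolynomial (Fin 2) ℝ) (D : ℕ) (hf : f.totalDegree ≤ D) :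
    ∃ F : MvPolynomial (Fin 3) ℝ, F.IsHomogeneous D ∧ rho F = f := by
  refine ⟨∑ m ∈ f.support, C (coeff m f) * X 0 ^ (m 0) * X 1 ^ (m 1) * X 2 ^ (D - (m 0 + m 1)), ?_, ?_⟩
  · apply IsHomogeneous.sum
    intro m hm
    have h1 : m 0 + m 1 ≤ D := by
      have h2 := le_totalDegree hm
      rw [Finsupp.sum_fintype _ _ (fun _ => rfl), Fin.sum_univ_two] at h2
      omega
    have h3 := (((isHomogeneous_C (Fin 3) (coeff m f)).mul ((isHomogeneous_X ℝ (0 : Fin 3)).pow (m 0))).mul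
      ((isHomogeneous_X ℝ (1 : Fin 3)).pow (m 1))).mul ((isHomogeneous_X ℝ (2 : Fin 3)).pow (D - (m 0 + m 1)))
    have h4 : 0 + 1 * m 0 + 1 * m 1 + 1 * (D - (m 0 + m 1)) = D := by omega
    rw [h4] at h3
    exact h3
  · rw [map_sum]
    conv_rhs => rw [f.as_sum]
    refine Finset.sum_congr rfl fun m _ => ?_
    rw [map_mul, map_mul, map_mul, map_pow, map_pow, map_pow, rho_X0, rho_X1, rho_X2, one_pow, mul_one,
      ← algebraMap_eq, AlgHom.commutes, algebraMap_eq, monomial_eq, Finsupp.prod_fintype _ _ (fun _ => pow_zero _),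
      Fin.prod_univ_two, mul_assoc]

theorem isCusp_of_rho {F : MvPolynomial (Fin 3) ℝ} {D : ℕ} (hF : F.IsHomogeneous D) {p : Fin 2 → ℝ}
    (h : CuspAt (rho F) p) : IsCusp F ![p 0, p 1, 1] := by
  obtain ⟨h0, h1, ⟨i, j, h2⟩, v, -, h3, h4⟩ := h
  set w : Fin 3 → ℝ := ![p 0, p 1, 1] with hw
  have w0 : w 0 = p 0 := rfl
  have w1 : w 1 = p 1 := rfl
  have w2 : w 2 = 1 := rfl
  rw [eval_rho] at h0
  -- Euler
  have eu : ∀ (G : MvPolynomial (Fin 3) ℝ) (n : ℕ), G.IsHomogeneous n → eval w G = 0 →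
      eval w (pderiv 2 G) = -(p 0 * eval w (pderiv 0 G) + p 1 * eval w (pderiv 1 G)) := by
    intro G n hG hG0
    have h := congrArg (eval w) hG.sum_X_mul_pderiv
    rw [Fin.sum_univ_three, map_add, map_add, map_mul, map_mul, map_mul, eval_X, eval_X, eval_X, map_nsmul, hG0,
      smul_zero, w0, w1, w2] at h
    linarith
  have g0 : eval w (pderiv 0 F) = 0 := by
    have := h1 0
    rw [pderiv0_rho, eval_rho] at this
    exact this
  have g1 : eval w (pderiv 1 F) = 0 := by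
    have := h1 1
    rw [pderiv1_rho, eval_rho] at this
    exact this
  have g2 : eval w (pderiv 2 F) = 0 := by
    rw [eu F D hF h0, g0, g1]
    ring
  have g : ∀ i, eval w (pderiv i F) = 0 := by
    intro i
    fin_cases i
    · exact g0
    · exact g1
    · exact g2
  -- second derivatives
  have s00 : eval p (pderiv 0 (pderiv 0 (rho F))) = eval w (pderiv 0 (pderiv 0 F)) := by
    rw [pderiv0_rho, pderiv0_rho, eval_rho]
  have s01 : eval p (pderiv 0 (pderiv 1 (rho F))) = eval w (pderiv 0 (pderiv 1 F)) := by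
    rw [pderiv1_rho, pderiv0_rho, eval_rho]
  have s10 : eval p (pderiv 1 (pderiv 0 (rho F))) = eval w (pderiv 1 (pderiv 0 F)) := by
    rw [pderiv0_rho, pderiv1_rho, eval_rho]
  have s11 : eval p (pderiv 1 (pderiv 1 (rho F))) = eval w (pderiv 1 (pderiv 1 F)) := by
    rw [pderiv1_rho, pderiv1_rho, eval_rho]
  have r0 := h3 0
  have r1 := h3 1
  rw [Fin.sum_univ_two] at r0 r1
  rw [s00, s01] at r0
  rw [s10, s11] at r1
  have e0 := eu (pderiv 0 F) (D - 1) hF.pderiv g0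
  have e1 := eu (pderiv 1 F) (D - 1) hF.pderiv g1
  refine ⟨h0, g, ?_, ![v 0, v 1, 0], ?_, ?_⟩
  · have key : ∀ i j : Fin 2, eval p (pderiv i (pderiv j (rho F))) ≠ 0 →
        ∃ i j : Fin 3, eval w (pderiv i (pderiv j F)) ≠ 0 := by
      intro i j hij
      fin_cases i <;> fin_cases j
      · exact ⟨0, 0, by rw [← s00]; exact hij⟩
      · exact ⟨0, 1, by rw [← s01]; exact hij⟩
      · exact ⟨1, 0, by rw [← s10]; exact hij⟩
      · exact ⟨1, 1, by rw [← s11]; exact hij⟩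
    exact key i j h2
  · intro i
    rw [Fin.sum_univ_three]
    show eval w (pderiv i (pderiv 0 F)) * v 0 + eval w (pderiv i (pderiv 1 F)) * v 1 +
      eval w (pderiv i (pderiv 2 F)) * 0 = 0
    fin_cases i
    · show eval w (pderiv 0 (pderiv 0 F)) * v 0 + eval w (pderiv 0 (pderiv 1 F)) * v 1 +
        eval w (pderiv 0 (pderiv 2 F)) * 0 = 0
      linarith
    · show eval w (pderiv 1 (pderiv 0 F)) * v 0 + eval w (pderiv 1 (pderiv 1 F)) * v 1 +
        eval w (pderiv 1 (pderiv 2 F)) * 0 = 0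
      linarith
    · show eval w (pderiv 2 (pderiv 0 F)) * v 0 + eval w (pderiv 2 (pderiv 1 F)) * v 1 +
        eval w (pderiv 2 (pderiv 2 F)) * 0 = 0
      rw [e0, e1]
      linear_combination -(p 0) * r0 - p 1 * r1
  · intro h
    apply h4
    simp only [Fin.sum_univ_three, Fin.sum_univ_two] at h ⊢
    rw [← h]
    have t : ∀ (P : MvPolynomial (Fin 3) ℝ), eval p (rho P) = eval w P := fun P => eval_rho P p
    simp only [pderiv0_rho, pderiv1_rho, t]
    show _ = (v 0 * v 0 * v 0 * _ + v 0 * v 0 * v 1 * _ + v 0 * v 0 * 0 * _ + (v 0 * v 1 * v 0 * _ + v 0 * v 1 * v 1 * _ + v 0 * v 1 * 0 * _) +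
      (v 0 * 0 * v 0 * _ + v 0 * 0 * v 1 * _ + v 0 * 0 * 0 * _)) + (v 1 * v 0 * v 0 * _ + v 1 * v 0 * v 1 * _ + v 1 * v 0 * 0 * _ + (v 1 * v 1 * v 0 * _ + v 1 * v 1 * v 1 * _ + v 1 * v 1 * 0 * _) +
      (v 1 * 0 * v 0 * _ + v 1 * 0 * v 1 * _ + v 1 * 0 * 0 * _)) + (0 * v 0 * v 0 * _ + 0 * v 0 * v 1 * _ + 0 * v 0 * 0 * _ + (0 * v 1 * v 0 * _ + 0 * v 1 * v 1 * _ + 0 * v 1 * 0 * _) +
      (0 * 0 * v 0 * _ + 0 * 0 * v 1 * _ + 0 * 0 * 0 * _))
    ring

/-- the main construction -/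
theorem exists_curve (d n : ℕ) (hn : 0 < n) (hd : 15 * n ≤ d) : ∃ F : MvPolynomial (Fin 3) ℝ, F.IsHomogeneous d ∧
    Squarefree F ∧ ∃ S : Finset (ℙ ℝ (Fin 3 → ℝ)), S.card = 57 * (n * n) ∧ ∀ P ∈ S, IsCusp F P.rep := by
  classical
  obtain ⟨f, S, h1, h2, h3⟩ := aff_cusps n hn
  obtain ⟨F0, hF0, hr⟩ := homogenize f (15 * n) h1
  let ψ : (Fin 2 → ℝ) → (Fin 3 → ℝ) := fun p => ![p 0, p 1, 1]
  have hc0 : ∀ w ∈ S.image ψ, IsCusp F0 w := by
    intro w hw
    obtain ⟨p, hp, rfl⟩ := Finset.mem_image.mp hw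
    apply isCusp_of_rho hF0
    rw [hr]
    exact h3 p hp
  have hw2 : ∀ w ∈ S.image ψ, w 2 ≠ 0 := by
    intro w hw
    obtain ⟨p, hp, rfl⟩ := Finset.mem_image.mp hw
    show (1 : ℝ) ≠ 0
    exact one_ne_zero
  have hF00 : F0 ≠ 0 := by
    rintro rfl
    have hne : S.Nonempty := by
      rw [← Finset.card_pos, h2]
      positivity
    obtain ⟨p, hp⟩ := hne
    obtain ⟨-, -, ⟨i, j, hij⟩, -⟩ := hc0 _ (Finset.mem_image_of_mem ψ hp)
    apply hij
    rw [map_zero, map_zero, map_zero]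
  obtain ⟨e', he', F1, hF1, hsq1, hc1⟩ := exists_squarefree (S.image ψ) (15 * n) F0 hF0 hF00 hc0
  obtain ⟨F, hF, hsq, hc⟩ := pad (S.image ψ) hw2 e' F1 hF1 hsq1 hc1 (d - e')
  rw [show e' + (d - e') = d by omega] at hF
  have hψ0 : ∀ p, ψ p ≠ 0 := by
    intro p h
    have := congrFun h 2
    exact one_ne_zero this
  let φ : (Fin 2 → ℝ) → ℙ ℝ (Fin 3 → ℝ) := fun p => Projectivization.mk ℝ (ψ p) (hψ0 p)
  have hφ : Function.Injective φ := by
    intro p p' h
    have h' := (Projectivization.mk_eq_mk_iff' ℝ _ _ (hψ0 p) (hψ0 p')).mp h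
    obtain ⟨a, ha⟩ := h'
    have k2 : a * 1 = 1 := congrFun ha 2
    have k0 : a * p' 0 = p 0 := congrFun ha 0
    have k1 : a * p' 1 = p 1 := congrFun ha 1
    rw [mul_one] at k2
    rw [k2, one_mul] at k0 k1
    funext i
    fin_cases i
    · exact k0.symm
    · exact k1.symm
  refine ⟨F, hF, hsq, S.image φ, ?_, ?_⟩
  · rw [Finset.card_image_of_injective _ hφ, h2]
  · intro P hP
    obtain ⟨p, hp, rfl⟩ := Finset.mem_image.mp hP
    have hc2 := hc _ (Finset.mem_image_of_mem ψ hp)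
    obtain ⟨a, ha⟩ := Projectivization.exists_smul_eq_mk_rep ℝ (ψ p) (hψ0 p)
    show IsCusp F (Projectivization.mk ℝ (ψ p) (hψ0 p)).rep
    rw [← ha]
    exact isCusp_smul hF a.ne_zero hc2

end Pool.Agent.helper5.CuspP
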